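import Mathlib

open NNReal

namespace Pool.Agent.Results.MP_6117a1_gt.Permutations

universe u

/-- `ρ` is a metric on the nonempty type `Y`. -/
def IsMet (Y : Type u) (ρ : Y → Y → ℝ≥0) : Prop :=
  Nonempty Y ∧ (∀ x y, ρ x y = 0 ↔ x = y) ∧ (∀ x y, ρ x y = ρ y x) ∧
    ∀ x y z, ρ x z ≤ ρ x y + ρ y z

/-- The functions preserving the class `X`. -/
def Pres (X : ∀ Y : Type u, (Y → Y → ℝ≥0) → Prop) : Set (ℝ≥0 → ℝ≥0) :=
  {f | ∀ Y ρ, X Y ρ → X Y fun a b => f (ρ a b)}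

lemma big {a b c : ℝ≥0} (ha : a ≠ 0) (hb : b ≠ a) (hc : c ≠ a) :
    ∃ f : ℝ≥0 → ℝ≥0, (Function.Bijective f ∧ f 0 = 0) ∧ f b + f c < f a := by
  classical
  have h0 : 0 < a := pos_iff_ne_zero.2 ha
  have m1 : b < a + b + c := by exact_mod_cast (by
    have : (0 : ℝ) < a := h0
    have := c.2
    push_cast; linarith : (b : ℝ) < (a + b + c : ℝ≥0))
  have m2 : c < a + b + c := lt_add_of_pos_left _ (by positivity)
  refine ⟨Equiv.swap a (a + b + c), ⟨Equiv.bijective _,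
    Equiv.swap_apply_of_ne_of_ne ha.symm (by positivity : (0 : ℝ≥0) < a + b + c).ne⟩, ?_⟩
  rw [Equiv.swap_apply_left, Equiv.swap_apply_of_ne_of_ne hb m1.ne,
    Equiv.swap_apply_of_ne_of_ne hc m2.ne, add_assoc]
  exact lt_add_of_pos_left _ h0

theorem result : ∃ A : Set (ℝ≥0 → ℝ≥0), id ∈ A ∧ (∀ f ∈ A, ∀ g ∈ A, f ∘ g ∈ A) ∧
    (∀ f ∈ A, ∀ t, f t = 0 ↔ t = 0) ∧
    ∀ X : ∀ Y : Type u, (Y → Y → ℝ≥0) → Prop, (∀ Y ρ, X Y ρ → IsMet Y ρ) → Pres X ≠ A := by
  classical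
  refine ⟨{f | Function.Bijective f ∧ f 0 = 0}, ⟨Function.bijective_id, rfl⟩,
    fun f hf g hg => ⟨hf.1.comp hg.1, by simp [hf.2, hg.2]⟩,
    fun f hf t => ⟨fun h => hf.1.1 (h.trans hf.2.symm), fun h => h ▸ hf.2⟩, fun X hX h => ?_⟩
  have key : (fun t : ℝ≥0 => if t = 0 then (0 : ℝ≥0) else 1) ∈ Pres X := by
    intro Y ρ hρ
    obtain ⟨-, h0, hs, -⟩ := hX Y ρ hρ
    have tri : ∀ x y z, x ≠ y → ρ x z ≠ ρ x y → ρ z y ≠ ρ x y → False := by
      intro x y z hxy h1 h2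
      obtain ⟨f, hf, hlt⟩ := big (fun e => hxy ((h0 _ _).1 e)) h1 h2
      have hf' : f ∈ Pres X := h ▸ hf
      exact absurd ((hX Y _ (hf' Y ρ hρ)).2.2.2 x z y) (not_le.2 hlt)
    have one : ∀ x y z, x ≠ y → x ≠ z → ρ x y = ρ x z := by
      intro x y z hy hz
      by_contra hne
      by_cases h1 : ρ z y = ρ x y
      · exact tri x z y hz hne (by rw [hs y z, h1]; exact hne)
      · exact tri x y z hy (Ne.symm hne) h1
    have all : ∀ x y z w, x ≠ y → z ≠ w → ρ x y = ρ z w := by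
      intro x y z w h1 h2
      by_cases e : x = z
      · subst e; exact one _ _ _ h1 h2
      · rw [one x y z h1 e, hs x z]; exact one _ _ _ (Ne.symm e) h2
    by_cases hY : ∃ x y : Y, x ≠ y
    · obtain ⟨x, y, hxy⟩ := hY
      have hk : ρ x y ≠ 0 := fun e => hxy ((h0 _ _).1 e)
      have hf : (Equiv.swap (ρ x y) 1 : ℝ≥0 → ℝ≥0) ∈ Pres X := by
        rw [h]
        exact ⟨Equiv.bijective _, Equiv.swap_apply_of_ne_of_ne hk.symm zero_ne_one⟩
      have := hf Y ρ hρ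
      have e : (fun a b => Equiv.swap (ρ x y) 1 (ρ a b)) =
          fun a b => if ρ a b = 0 then (0 : ℝ≥0) else 1 := by
        funext a b
        by_cases hab : a = b
        · rw [(h0 a b).2 hab, if_pos rfl]
          exact Equiv.swap_apply_of_ne_of_ne hk.symm zero_ne_one
        · rw [if_neg fun e => hab ((h0 _ _).1 e), all a b x y hab hxy, Equiv.swap_apply_left]
      rwa [e] at this
    · push Not at hY
      have e : (fun a b => if ρ a b = 0 then (0 : ℝ≥0) else 1) = ρ := by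
        funext a b
        rw [(h0 a b).2 (hY a b), if_pos rfl]
      simpa only [e] using hρ
  rw [h] at key
  have := @key.1.1 1 2 (by simp)
  norm_num at this

end Pool.Agent.Results.MP_6117a1_gt.Permutations
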